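import Mathlib

open MvPolynomial Matrix

namespace Pool.Agent.H533R2.SymSdit

variable {K : Type*} [Field K] {n σ : Type*} [Fintype n] [Fintype σ]

/-- The multipliers `1` and `X k`. -/
noncomputable def ff (K : Type*) {σ : Type*} [Field K] : Option σ → MvPolynomial σ K
  | none => 1
  | some k => X k

/-- The affine symbolic matrix `A none + ∑ k, X k • A (some k)`. -/
noncomputable def symb (A : Option σ → Matrix n n K) : Matrix n n (MvPolynomial σ K) :=
  fun i j => ∑ k, C (A k i j) * ff K k

/-- coefficient vector -/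
noncomputable def cf (y : n → MvPolynomial σ K) (α : σ →₀ ℕ) : n → K := fun i => coeff α (y i)

/-- entrywise constants -/
noncomputable def cst (v : n → K) : n → MvPolynomial σ K := fun i => C (v i)

/-- The span of the coefficient vectors of the polynomial kernel vectors. -/
noncomputable def LL (A : Option σ → Matrix n n K) : Submodule K (n → K) :=
  Submodule.span K {v | ∃ y : n → MvPolynomial σ K, symb A *ᵥ y = 0 ∧ ∃ α, v = cf y α}

omit [Fintype σ] in
theorem map_C_mulVec_coeff (M : Matrix n n K) (y : n → MvPolynomial σ K) (α : σ →₀ ℕ) :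
    cf (M.map C *ᵥ y) α = M *ᵥ cf y α := by
  funext i
  simp [cf, Matrix.mulVec, dotProduct, coeff_sum, coeff_C_mul]

theorem symb_mulVec (A : Option σ → Matrix n n K) (y : n → MvPolynomial σ K) :
    symb A *ᵥ y = ∑ k, (ff K k : MvPolynomial σ K) • ((A k).map C *ᵥ y) := by
  funext i
  simp only [symb, Matrix.mulVec, dotProduct, Finset.sum_apply, Pi.smul_apply, smul_eq_mul,
    Finset.sum_mul, Finset.mul_sum, Matrix.map_apply]
  rw [Finset.sum_comm]
  refine Finset.sum_congr rfl fun k _ => Finset.sum_congr rfl fun j _ => by ring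

theorem cf_mem_LL (A : Option σ → Matrix n n K) {y : n → MvPolynomial σ K}
    (hy : symb A *ᵥ y = 0) (α : σ →₀ ℕ) : cf y α ∈ LL A :=
  Submodule.subset_span ⟨y, hy, α, rfl⟩

theorem cf_pderiv_mem_LL (A : Option σ → Matrix n n K) {y : n → MvPolynomial σ K}
    (hy : symb A *ᵥ y = 0) (k : σ) (α : σ →₀ ℕ) : cf (fun i => pderiv k (y i)) α ∈ LL A := by
  classical
  have : cf (fun i => pderiv k (y i)) α = ((α k : K) + 1) • cf y (α + Finsupp.single k 1) := by
    funext i
    simp [cf, coeff_pderiv, mul_comm]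
  rw [this]
  exact Submodule.smul_mem _ _ (cf_mem_LL A hy _)

theorem deriv_some (A : Option σ → Matrix n n K) (y : n → MvPolynomial σ K)
    (hy : symb A *ᵥ y = 0) (k : σ) :
    (A (some k)).map C *ᵥ y = - (symb A *ᵥ (fun i => pderiv k (y i))) := by
  classical
  funext i
  have h := congrArg (pderiv k) (congrFun hy i)
  simp only [symb, Matrix.mulVec, dotProduct, Pi.zero_apply, map_zero, map_sum, Derivation.leibniz,
    pderiv_C, smul_eq_mul, mul_zero, add_zero, Pi.neg_apply, Matrix.map_apply] at h ⊢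
  rw [Finset.sum_add_distrib] at h
  rw [eq_neg_iff_add_eq_zero, ← h, add_comm]
  congr 1
  refine Finset.sum_congr rfl fun j _ => ?_
  rw [Fintype.sum_option, Finset.sum_eq_single k]
  · simp [ff, mul_comm]
  · intro b _ hb
    simp [ff, pderiv_X, hb]
  · simp

/-- Every coefficient matrix applied to a kernel vector is the symbolic matrix applied to a
vector whose coefficient vectors lie in `LL`. -/
theorem deriv_ker (A : Option σ → Matrix n n K) (y : n → MvPolynomial σ K)
    (hy : symb A *ᵥ y = 0) (k : Option σ) :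
    ∃ y' : n → MvPolynomial σ K, (∀ α, cf y' α ∈ LL A) ∧
      (A k).map C *ᵥ y = - (symb A *ᵥ y') := by
  classical
  rcases k with _ | k
  · refine ⟨- ∑ s, (X s : MvPolynomial σ K) • (fun i => pderiv s (y i)), ?_, ?_⟩
    · intro α
      have e : cf (- ∑ s, (X s : MvPolynomial σ K) • (fun i => pderiv s (y i))) α =
          - ∑ s, (if s ∈ α.support then cf (fun i => pderiv s (y i)) (α - Finsupp.single s 1)
            else 0) := by
        funext i
        simp only [cf, Pi.neg_apply, Finset.sum_apply, Pi.smul_apply, smul_eq_mul, coeff_neg,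
          coeff_sum, coeff_X_mul']
        congr 1
        refine Finset.sum_congr rfl fun s _ => ?_
        split_ifs <;> rfl
      rw [e]
      refine Submodule.neg_mem _ (Submodule.sum_mem _ fun s _ => ?_)
      split_ifs
      · exact cf_pderiv_mem_LL A hy s _
      · exact Submodule.zero_mem _
    · rw [Matrix.mulVec_neg, neg_neg, Matrix.mulVec_sum]
      have h0 := symb_mulVec A y
      rw [hy, Fintype.sum_option] at h0
      have h1 : (A none).map C *ᵥ y = - ∑ s, (X s : MvPolynomial σ K) •
          ((A (some s)).map C *ᵥ y) := by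
        rw [eq_neg_iff_add_eq_zero]
        simpa [ff] using h0.symm
      rw [h1, ← Finset.sum_neg_distrib]
      refine Finset.sum_congr rfl fun s _ => ?_
      rw [deriv_some A y hy s, Matrix.mulVec_smul, smul_neg, neg_neg]
  · exact ⟨_, cf_pderiv_mem_LL A hy k, deriv_some A y hy k⟩

omit [Fintype n] in
theorem symb_symm (A : Option σ → Matrix n n K) (hA : ∀ k, (A k).IsSymm) :
    (symb A).IsSymm := by
  refine Matrix.IsSymm.ext fun i j => ?_
  simp only [symb]
  refine Finset.sum_congr rfl fun k _ => ?_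
  rw [(hA k).apply]

theorem isotropy (A : Option σ → Matrix n n K) (hA : ∀ k, (A k).IsSymm)
    (y y' : n → MvPolynomial σ K) (hy : symb A *ᵥ y = 0) (hy' : symb A *ᵥ y' = 0)
    (k : Option σ) : y' ⬝ᵥ ((A k).map C *ᵥ y) = 0 := by
  obtain ⟨w, -, hw⟩ := deriv_ker A y hy k
  rw [hw, dotProduct_neg, neg_eq_zero, Matrix.dotProduct_mulVec,
    ← Matrix.mulVec_transpose, (symb_symm A hA).eq, hy', zero_dotProduct]

omit [Fintype σ] in
/-- Expansion of a vector of polynomials along monomials. -/
theorem expand (y : n → MvPolynomial σ K) :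
    ∃ S : Finset (σ →₀ ℕ), y = ∑ α ∈ S, (monomial α (1 : K)) • (cst (cf y α)) := by
  classical
  refine ⟨Finset.univ.biUnion fun i => (y i).support, ?_⟩
  funext i
  rw [Finset.sum_apply]
  conv_lhs => rw [(y i).as_sum]
  rw [Finset.sum_subset (Finset.subset_biUnion_of_mem (fun i => (y i).support) (Finset.mem_univ i))]
  · refine Finset.sum_congr rfl fun α _ => ?_
    simp [cst, cf, mul_comm (monomial α (1 : K)), C_mul_monomial]
  · intro α _ h
    simp only [mem_support_iff, ne_eq, not_not] at h
    simp [h]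

theorem kill_of_kill (A : Option σ → Matrix n n K) (z : n → MvPolynomial σ K)
    (hz : ∀ l ∈ LL A, z ⬝ᵥ (symb A *ᵥ cst l) = 0)
    (y : n → MvPolynomial σ K) (hy : ∀ α, cf y α ∈ LL A) : z ⬝ᵥ (symb A *ᵥ y) = 0 := by
  obtain ⟨S, hS⟩ := expand y
  rw [hS, Matrix.mulVec_sum, dotProduct_sum]
  refine Finset.sum_eq_zero fun α _ => ?_
  rw [Matrix.mulVec_smul, dotProduct_smul, hz _ (hy α), smul_zero]

theorem symm_dot {R : Type*} [CommRing R] {M : Matrix n n R} (hs : M.IsSymm) (x y : n → R) :
    x ⬝ᵥ (M *ᵥ y) = y ⬝ᵥ (M *ᵥ x) := by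
  rw [Matrix.dotProduct_mulVec, ← Matrix.mulVec_transpose, hs.eq, dotProduct_comm]

/-- A symmetric matrix of rank at most two is anisotropic modulo its kernel or of the
shape `u vᵀ + v uᵀ`. -/
theorem rank_two_form (M : Matrix n n K) (hs : M.IsSymm) (hr : M.rank ≤ 2) (h2 : (2 : K) ≠ 0) :
    (∀ y, y ⬝ᵥ (M *ᵥ y) = 0 → M *ᵥ y = 0) ∨
      ∃ u v : n → K, ∀ x : n → K, M *ᵥ x = (v ⬝ᵥ x) • u + (u ⬝ᵥ x) • v := by
  classical
  by_cases h : ∀ y, y ⬝ᵥ (M *ᵥ y) = 0 → M *ᵥ y = 0
  · exact Or.inl h
  right
  push Not at h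
  obtain ⟨y, hy0, hy1⟩ := h
  obtain ⟨i, hi⟩ := Function.ne_iff.mp hy1
  simp only [Pi.zero_apply] at hi
  set w0 : n → K := Pi.single i ((M *ᵥ y) i)⁻¹ with hw0
  have h10 : w0 ⬝ᵥ (M *ᵥ y) = 1 := by
    rw [hw0, single_dotProduct, inv_mul_cancel₀ hi]
  set c : K := w0 ⬝ᵥ (M *ᵥ w0) with hc
  set w : n → K := w0 - (c / 2) • y with hw
  have hwy : w ⬝ᵥ (M *ᵥ y) = 1 := by
    rw [hw, sub_dotProduct, smul_dotProduct, hy0, h10]; simp
  have hww : w ⬝ᵥ (M *ᵥ w) = 0 := by
    have e1 : w ⬝ᵥ (M *ᵥ w) = w ⬝ᵥ (M *ᵥ w0) - (c / 2) • (w ⬝ᵥ (M *ᵥ y)) := by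
      conv_lhs => rw [hw]
      rw [← hw, Matrix.mulVec_sub, Matrix.mulVec_smul, dotProduct_sub, dotProduct_smul]
    have e2 : w ⬝ᵥ (M *ᵥ w0) = c - (c / 2) := by
      rw [hw, sub_dotProduct, smul_dotProduct, symm_dot hs y w0, h10]
      simp [hc]
    rw [e1, e2, hwy]
    simp only [smul_eq_mul, mul_one]
    field_simp
    ring
  set u : n → K := M *ᵥ y with hu
  set v : n → K := M *ᵥ w with hv
  have hyv : y ⬝ᵥ v = 1 := by rw [hv, symm_dot hs]; exact hwy
  refine ⟨u, v, ?_⟩
  have hli : LinearIndependent K ![u, v] := by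
    rw [LinearIndependent.pair_iff]
    intro s t hst
    have e1 := congrArg (fun x => w ⬝ᵥ x) hst
    have e2 := congrArg (fun x => y ⬝ᵥ x) hst
    simp only [dotProduct_add, dotProduct_smul, hwy, hww, hy0, hyv, dotProduct_zero,
      smul_eq_mul, mul_one, mul_zero, add_zero, zero_add] at e1 e2
    exact ⟨e1, e2⟩
  have hspan : Submodule.span K (Set.range ![u, v]) = LinearMap.range M.mulVecLin := by
    apply Submodule.eq_of_le_of_finrank_le
    · rw [Submodule.span_le]
      rintro _ ⟨j, rfl⟩
      fin_cases j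
      · exact ⟨y, rfl⟩
      · exact ⟨w, rfl⟩
    · rw [finrank_span_eq_card hli]
      exact hr
  intro x
  have hx : M *ᵥ x ∈ Submodule.span K (Set.range ![u, v]) := by
    rw [hspan]; exact ⟨x, rfl⟩
  have hr2 : Set.range ![u, v] = {u, v} := by simp [Set.pair_comm]
  rw [hr2, Submodule.mem_span_pair] at hx
  obtain ⟨a, b, hab⟩ := hx
  have e1 := congrArg (fun t => w ⬝ᵥ t) hab
  have e2 := congrArg (fun t => y ⬝ᵥ t) hab
  simp only [dotProduct_add, dotProduct_smul, hwy, hww, hy0, hyv,
      smul_eq_mul, mul_one, mul_zero, add_zero, zero_add] at e1 e2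
  rw [symm_dot hs, dotProduct_comm] at e1 e2
  rw [← hab, e1, e2]

/-- Anisotropy modulo the kernel passes to vectors of polynomials. -/
theorem aniso_poly (M : Matrix n n K) (hs : M.IsSymm)
    (ha : ∀ y : n → K, y ⬝ᵥ (M *ᵥ y) = 0 → M *ᵥ y = 0) (y : n → MvPolynomial σ K)
    (hy : y ⬝ᵥ (M.map C *ᵥ y) = 0) (α : σ →₀ ℕ) : M *ᵥ cf y α = 0 := by
  classical
  let _ : LinearOrder σ := LinearOrder.lift' (Fintype.equivFin σ) (Fintype.equivFin σ).injective
  by_contra hα
  obtain ⟨S0, hS0⟩ := expand y
  set T : Finset (σ →₀ ℕ) := Finset.univ.biUnion fun i => (y i).support with hT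
  set S : Finset (σ →₀ ℕ) := T.filter fun β => M *ᵥ cf y β ≠ 0 with hS
  have hSmem : ∀ β, β ∉ S → M *ᵥ cf y β = 0 := by
    intro β hβ
    by_contra hne
    apply hβ
    rw [hS, Finset.mem_filter]
    refine ⟨?_, hne⟩
    rw [hT, Finset.mem_biUnion]
    by_contra hcon
    push Not at hcon
    apply hne
    have : cf y β = 0 := by
      funext i
      have := hcon i (Finset.mem_univ i)
      simpa [cf, mem_support_iff] using this
    rw [this, Matrix.mulVec_zero]
  have hne : S.Nonempty := ⟨α, by by_contra h; exact hα (hSmem α h)⟩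
  obtain ⟨μ, hμS, hμ⟩ := Finset.exists_max_image S (fun a => toLex a) hne
  have hcoef : coeff (μ + μ) (y ⬝ᵥ (M.map C *ᵥ y)) = cf y μ ⬝ᵥ (M *ᵥ cf y μ) := by
    have e : coeff (μ + μ) (y ⬝ᵥ (M.map C *ᵥ y)) =
        ∑ x ∈ Finset.HasAntidiagonal.antidiagonal (μ + μ), cf y x.1 ⬝ᵥ (M *ᵥ cf y x.2) := by
      simp only [dotProduct, coeff_sum, coeff_mul]
      rw [Finset.sum_comm]
      refine Finset.sum_congr rfl fun x _ => Finset.sum_congr rfl fun i _ => ?_
      rw [← map_C_mulVec_coeff]; rfl
    rw [e, Finset.sum_eq_single (μ, μ)]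
    · rintro ⟨β, γ⟩ hx hne'
      rw [Finset.HasAntidiagonal.mem_antidiagonal] at hx
      simp only at hx ⊢
      by_cases hγ : γ ∈ S
      · by_cases hβ : β ∈ S
        · exfalso
          apply hne'
          have h1 : toLex β ≤ toLex μ := hμ β hβ
          have h2 : toLex γ ≤ toLex μ := hμ γ hγ
          have hsum : toLex β + toLex γ = toLex μ + toLex μ := by
            rw [← toLex_add, ← toLex_add, hx]
          rcases h1.lt_or_eq with h1' | h1'
          · exact absurd hsum (ne_of_lt (add_lt_add_of_lt_of_le h1' h2))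
          · have hb : β = μ := toLex.injective h1'
            subst hb
            have : γ = β := add_left_cancel hx
            rw [this]
        · rw [symm_dot hs, hSmem β hβ, dotProduct_zero]
      · rw [hSmem γ hγ, dotProduct_zero]
    · intro h
      exact absurd (by rw [Finset.HasAntidiagonal.mem_antidiagonal]) h
  rw [hy, coeff_zero] at hcoef
  have h0 := ha _ hcoef.symm
  rw [hS, Finset.mem_filter] at hμS
  exact hμS.2 h0

/-- rank at most two, or anisotropic modulo the kernel -/
def Good (M : Matrix n n K) : Prop :=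
  M.rank ≤ 2 ∨ ∀ y : n → K, y ⬝ᵥ (M *ᵥ y) = 0 → M *ᵥ y = 0

omit [Fintype σ] in
theorem map_C_mulVec_cst (M : Matrix n n K) (v : n → K) :
    (M.map C *ᵥ cst v : n → MvPolynomial σ K) = cst (M *ᵥ v) := by
  funext i
  simp [cst, Matrix.mulVec, dotProduct]

omit [Fintype σ] in
theorem cst_dot_coeff (u : n → K) (y : n → MvPolynomial σ K) (α : σ →₀ ℕ) :
    coeff α (cst u ⬝ᵥ y) = u ⬝ᵥ cf y α := by
  simp [cst, cf, dotProduct, coeff_sum, coeff_C_mul]

theorem LL_induction (A : Option σ → Matrix n n K) (P : Submodule K (n → K))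
    (h : ∀ y : n → MvPolynomial σ K, symb A *ᵥ y = 0 → ∀ α, cf y α ∈ P) : LL A ≤ P := by
  rw [LL, Submodule.span_le]
  rintro _ ⟨y, hy, α, rfl⟩
  exact h y hy α

theorem kill_ker (A : Option σ → Matrix n n K) (z : n → MvPolynomial σ K)
    (hz : ∀ l ∈ LL A, z ⬝ᵥ (symb A *ᵥ cst l) = 0) (k : Option σ)
    (y : n → MvPolynomial σ K) (hy : symb A *ᵥ y = 0) : z ⬝ᵥ ((A k).map C *ᵥ y) = 0 := by
  obtain ⟨w, hw, e⟩ := deriv_ker A y hy k
  rw [e, dotProduct_neg, neg_eq_zero]
  exact kill_of_kill A z hz _ hw

omit [Fintype σ] in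
theorem form_eq (M : Matrix n n K) (u v : n → K) (hM : ∀ i j, M i j = u i * v j + v i * u j)
    (z y : n → MvPolynomial σ K) : z ⬝ᵥ (M.map C *ᵥ y) =
      (z ⬝ᵥ cst u) * (cst v ⬝ᵥ y) + (z ⬝ᵥ cst v) * (cst u ⬝ᵥ y) := by
  have e : M.map C *ᵥ y = (cst v ⬝ᵥ y) • (cst u : n → MvPolynomial σ K) +
      (cst u ⬝ᵥ y) • cst v := by
    funext i
    simp only [Matrix.mulVec, dotProduct, Matrix.map_apply, hM, cst, map_add, map_mul,
      Pi.add_apply, Pi.smul_apply, smul_eq_mul, Finset.sum_mul, ← Finset.sum_add_distrib]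
    refine Finset.sum_congr rfl fun j _ => by ring
  rw [e, dotProduct_add, dotProduct_smul, dotProduct_smul, smul_eq_mul, smul_eq_mul]
  ring

theorem rank_two_aux (A : Option σ → Matrix n n K) (z : n → MvPolynomial σ K)
    (hz : ∀ l ∈ LL A, z ⬝ᵥ (symb A *ᵥ cst l) = 0) (k : Option σ) (u v : n → K)
    (hM : ∀ i j, A k i j = u i * v j + v i * u j)
    (hu : ∀ y : n → MvPolynomial σ K, symb A *ᵥ y = 0 → cst u ⬝ᵥ y = 0)
    (l : n → K) (hl : l ∈ LL A) : z ⬝ᵥ ((A k).map C *ᵥ cst l) = 0 := by
  have form : ∀ y : n → MvPolynomial σ K, z ⬝ᵥ ((A k).map C *ᵥ y) =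
      (z ⬝ᵥ cst u) * (cst v ⬝ᵥ y) + (z ⬝ᵥ cst v) * (cst u ⬝ᵥ y) :=
    fun y => form_eq (A k) u v hM z y
  have perp : ∀ w : n → K, (∀ y : n → MvPolynomial σ K, symb A *ᵥ y = 0 → cst w ⬝ᵥ y = 0) →
      w ⬝ᵥ l = 0 := by
    intro w hw
    have := LL_induction A (LinearMap.ker (dotProductBilin K K w)) (by
      intro y hy α
      rw [LinearMap.mem_ker]
      show w ⬝ᵥ cf y α = 0
      rw [← cst_dot_coeff, hw y hy, coeff_zero]) hl
    exact this
  have cstdot : ∀ w : n → K, (cst w ⬝ᵥ cst l : MvPolynomial σ K) = C (w ⬝ᵥ l) := by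
    intro w; simp [cst, dotProduct]
  rw [form, cstdot, cstdot, perp u hu]
  by_cases hv : ∀ y : n → MvPolynomial σ K, symb A *ᵥ y = 0 → cst v ⬝ᵥ y = 0
  · rw [perp v hv]; simp
  · push Not at hv
    obtain ⟨y, hy, hy1⟩ := hv
    have h0 := kill_ker A z hz k y hy
    rw [form, hu y hy, mul_zero, add_zero] at h0
    rcases mul_eq_zero.mp h0 with h | h
    · rw [h]; simp
    · exact absurd h hy1

theorem good_kill (A : Option σ → Matrix n n K) (hA : ∀ k, (A k).IsSymm) (h2 : (2 : K) ≠ 0)
    (z : n → MvPolynomial σ K)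
    (hz : ∀ l ∈ LL A, z ⬝ᵥ (symb A *ᵥ cst l) = 0) (k : Option σ) (hk : Good (A k))
    (l : n → K) (hl : l ∈ LL A) : z ⬝ᵥ ((A k).map C *ᵥ cst l) = 0 := by
  have aniso : (∀ y : n → K, y ⬝ᵥ (A k *ᵥ y) = 0 → A k *ᵥ y = 0) →
      z ⬝ᵥ ((A k).map C *ᵥ cst l) = 0 := by
    intro h
    have hl0 : A k *ᵥ l = 0 := by
      have := LL_induction A (LinearMap.ker (A k).mulVecLin) (by
        intro y hy α
        rw [LinearMap.mem_ker, Matrix.mulVecLin_apply]
        exact aniso_poly (A k) (hA k) h y (isotropy A hA y y hy hy k) α) hl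
      rw [LinearMap.mem_ker, Matrix.mulVecLin_apply] at this
      exact this
    rw [map_C_mulVec_cst, hl0]
    simp [cst, dotProduct]
  rcases hk with hk | hk
  · rcases rank_two_form (A k) (hA k) hk h2 with h | ⟨u, v, h⟩
    · exact aniso h
    · classical
      have hM : ∀ i j, A k i j = u i * v j + v i * u j := by
        intro i j
        have := congrFun (h (Pi.single j 1)) i
        simp only [Matrix.mulVec_single_one, Matrix.col_apply, dotProduct_single, mul_one,
          Pi.add_apply, Pi.smul_apply, smul_eq_mul] at this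
        rw [this]; ring
      have prod : ∀ y : n → MvPolynomial σ K, symb A *ᵥ y = 0 →
          cst u ⬝ᵥ y = 0 ∨ cst v ⬝ᵥ y = 0 := by
        intro y hy
        have h0 := isotropy A hA y y hy hy k
        have e : y ⬝ᵥ ((A k).map C *ᵥ y) = C 2 * ((cst u ⬝ᵥ y) * (cst v ⬝ᵥ y)) := by
          rw [form_eq (A k) u v hM y y, dotProduct_comm y, dotProduct_comm y]
          simp only [map_ofNat]
          ring
        rw [e] at h0
        have hC : (C 2 : MvPolynomial σ K) ≠ 0 := by
          rw [Ne, C_eq_zero]; exact h2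
        exact mul_eq_zero.mp ((mul_eq_zero.mp h0).resolve_left hC)
      by_cases hu : ∀ y : n → MvPolynomial σ K, symb A *ᵥ y = 0 → cst u ⬝ᵥ y = 0
      · exact rank_two_aux A z hz k u v hM hu l hl
      by_cases hv : ∀ y : n → MvPolynomial σ K, symb A *ᵥ y = 0 → cst v ⬝ᵥ y = 0
      · refine rank_two_aux A z hz k v u (fun i j => by rw [hM]; ring) hv l hl
      exfalso
      push Not at hu hv
      obtain ⟨y1, hy1, hu1⟩ := hu
      obtain ⟨y2, hy2, hv2⟩ := hv
      have hv1 := (prod y1 hy1).resolve_left hu1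
      have hu2 := (prod y2 hy2).resolve_right hv2
      have hsum : symb A *ᵥ (y1 + y2) = 0 := by rw [Matrix.mulVec_add, hy1, hy2, add_zero]
      rcases prod (y1 + y2) hsum with h | h
      · rw [dotProduct_add, hu2, add_zero] at h; exact hu1 h
      · rw [dotProduct_add, hv1, zero_add] at h; exact hv2 h
  · exact aniso hk

omit [Fintype σ] in
theorem two_var (a b : Option σ) (hab : a ≠ b) :
    (C (ff K a) * MvPolynomial.map C (ff K b) - MvPolynomial.map C (ff K a) * C (ff K b) :
      MvPolynomial σ (MvPolynomial σ K)) ≠ 0 := by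
  classical
  intro h
  rcases a with _ | a <;> rcases b with _ | b
  · exact hab rfl
  · have h1 := congrArg (coeff 0) h
    simp [ff] at h1
  · have h1 := congrArg (coeff 0) h
    simp [ff] at h1
  · have hab' : a ≠ b := fun h => hab (by rw [h])
    have h1 := congrArg (coeff (Finsupp.single b 1)) h
    simp only [ff, map_X] at h1
    rw [coeff_sub, coeff_C_mul, mul_comm (X a) (C (X b)), coeff_C_mul, coeff_X, coeff_X,
      if_pos rfl, if_neg (by
        intro h
        exact hab' ((Finsupp.single_left_injective one_ne_zero) h)), mul_one, mul_zero, sub_zero,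
      coeff_zero] at h1
    exact X_ne_zero a h1

omit [Fintype σ] in
theorem ff_ne_zero (a : Option σ) : (ff K a : MvPolynomial σ K) ≠ 0 := by
  rcases a with _ | a
  · exact one_ne_zero
  · exact X_ne_zero a

theorem key (A : Option σ → Matrix n n K) (hA : ∀ k, (A k).IsSymm) (h2 : (2 : K) ≠ 0)
    (E : Finset (Option σ)) (hE : E.card ≤ 2) (hgood : ∀ k ∉ E, Good (A k))
    (z : n → MvPolynomial σ K)
    (hz : ∀ l ∈ LL A, z ⬝ᵥ (symb A *ᵥ cst l) = 0) (k : Option σ)
    (l : n → K) (hl : l ∈ LL A) : z ⬝ᵥ ((A k).map C *ᵥ cst l) = 0 := by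
  classical
  by_cases hk : k ∈ E
  swap
  · exact good_kill A hA h2 z hz k (hgood k hk) l hl
  let P : Submodule K (n → K) :=
    { carrier := {l | z ⬝ᵥ ((A k).map C *ᵥ cst l) = 0}
      add_mem' := by
        intro a b ha hb
        simp only [Set.mem_ofPred_eq] at ha hb ⊢
        have : (cst (a + b) : n → MvPolynomial σ K) = cst a + cst b := by
          funext i; simp [cst]
        rw [this, Matrix.mulVec_add, dotProduct_add, ha, hb, add_zero]
      zero_mem' := by
        simp only [Set.mem_ofPred_eq]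
        have : (cst (0 : n → K) : n → MvPolynomial σ K) = 0 := by
          funext i; simp [cst]
        rw [this, Matrix.mulVec_zero, dotProduct_zero]
      smul_mem' := by
        intro c a ha
        simp only [Set.mem_ofPred_eq] at ha ⊢
        have : (cst (c • a) : n → MvPolynomial σ K) = (C c : MvPolynomial σ K) • cst a := by
          funext i; simp [cst]
        rw [this, Matrix.mulVec_smul, dotProduct_smul, ha, smul_zero] }
  refine LL_induction A P ?_ hl
  intro y hy α
  show z ⬝ᵥ ((A k).map C *ᵥ cst (cf y α)) = 0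
  -- the two-set polynomials
  let c : Option σ → MvPolynomial σ (MvPolynomial σ K) := fun k =>
    ∑ i, C (z i) * ∑ j, C (C (A k i j)) * map C (y j)
  have hcoeff : ∀ k α, coeff α (c k) = z ⬝ᵥ ((A k).map C *ᵥ cst (cf y α)) := by
    intro k α
    simp only [c, coeff_sum, coeff_C_mul, coeff_map, dotProduct, Matrix.mulVec,
      Matrix.map_apply, cst, cf]
  have hI : ∑ k, C (ff K k) * c k = 0 := by
    ext1 α
    rw [coeff_sum, coeff_zero]
    simp only [coeff_C_mul, hcoeff]
    have := hz _ (cf_mem_LL A hy α)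
    rw [symb_mulVec, dotProduct_sum] at this
    simpa only [dotProduct_smul, smul_eq_mul] using this
  have hII : ∑ k, MvPolynomial.map C (ff K k) * c k = 0 := by
    have e : ∑ k, MvPolynomial.map C (ff K k) * c k =
        ∑ i, C (z i) * MvPolynomial.map C ((symb A *ᵥ y) i) := by
      simp only [c, Finset.mul_sum]
      rw [Finset.sum_comm]
      refine Finset.sum_congr rfl fun i _ => ?_
      simp only [symb, Matrix.mulVec, dotProduct, map_sum, map_mul, map_C, Finset.mul_sum,
        Finset.sum_mul]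
      rw [Finset.sum_comm]
      refine Finset.sum_congr rfl fun j _ => Finset.sum_congr rfl fun k _ => by ring
    rw [e, hy]
    simp
  have hoff : ∀ k ∉ E, c k = 0 := by
    intro k hk
    ext1 α
    rw [hcoeff, coeff_zero]
    exact good_kill A hA h2 z hz k (hgood k hk) _ (cf_mem_LL A hy α)
  have hI' : ∑ k ∈ E, C (ff K k) * c k = 0 := by
    rw [← hI]
    refine Finset.sum_subset (Finset.subset_univ _) fun k _ hk => by rw [hoff k hk, mul_zero]
  have hII' : ∑ k ∈ E, MvPolynomial.map C (ff K k) * c k = 0 := by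
    rw [← hII]
    refine Finset.sum_subset (Finset.subset_univ _) fun k _ hk => by rw [hoff k hk, mul_zero]
  have hck : c k = 0 := by
    have hcard : E.card = 1 ∨ E.card = 2 := by
      have : 0 < E.card := Finset.card_pos.mpr ⟨k, hk⟩
      omega
    rcases hcard with h1 | h1
    · obtain ⟨a, ha⟩ := Finset.card_eq_one.mp h1
      rw [ha, Finset.mem_singleton] at hk
      rw [ha, Finset.sum_singleton, ← hk] at hI'
      exact (mul_eq_zero.mp hI').resolve_left (fun h => ff_ne_zero k (C_eq_zero.mp h))
    · obtain ⟨a, b, hab, hE'⟩ := Finset.card_eq_two.mp h1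
      rw [hE', Finset.sum_pair hab] at hI' hII'
      have ca : c a = 0 := by
        have : (C (ff K a) * MvPolynomial.map C (ff K b) - MvPolynomial.map C (ff K a) * C (ff K b)) * c a = 0 := by
          linear_combination MvPolynomial.map C (ff K b) * hI' - C (ff K b) * hII'
        exact (mul_eq_zero.mp this).resolve_left (two_var a b hab)
      have cb : c b = 0 := by
        have : (C (ff K b) * MvPolynomial.map C (ff K a) - MvPolynomial.map C (ff K b) * C (ff K a)) * c b = 0 := by
          linear_combination MvPolynomial.map C (ff K a) * hI' - C (ff K a) * hII'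
        exact (mul_eq_zero.mp this).resolve_left (two_var b a hab.symm)
      rw [hE', Finset.mem_insert, Finset.mem_singleton] at hk
      rcases hk with rfl | rfl
      · exact ca
      · exact cb
  rw [← hcoeff, hck, coeff_zero]

/-! ### Base change to the fraction field -/

section basechange

variable (F : Type*) [Field F] [Algebra K F]

/-- entrywise embedding -/
def ex (v : n → K) : n → F := fun i => algebraMap K F (v i)

/-- scalar extension of a subspace -/
def UF (U : Submodule K (n → K)) : Submodule F (n → F) := Submodule.span F (ex F '' (U : Set (n → K)))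

omit [Fintype n] in
theorem ex_add (v w : n → K) : ex F (v + w) = ex F v + ex F w := by funext i; simp [ex]

omit [Fintype n] in
theorem ex_smul (c : K) (v : n → K) : ex F (c • v) = algebraMap K F c • ex F v := by
  funext i; simp [ex]

omit [Fintype n] in
theorem ex_zero : ex F (0 : n → K) = 0 := by funext i; simp [ex]

omit [Fintype n] in
theorem ex_sum {ι : Type*} (s : Finset ι) (f : ι → n → K) :
    ex F (∑ i ∈ s, f i) = ∑ i ∈ s, ex F (f i) := by
  funext j; simp [ex]

theorem finrank_UF (U : Submodule K (n → K)) :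
    Module.finrank F (UF F U) = Module.finrank K U := by
  let b := Module.finBasis K U
  have hli : LinearIndependent K (fun i => (b i : n → K)) :=
    b.linearIndependent.map' U.subtype (Submodule.ker_subtype U)
  have hli' : LinearIndependent F (fun i => ex F (b i : n → K)) :=
    (linearIndependent_algebraMap_comp_iff (R := K) (S := F)).mpr hli
  have hspan : UF F U = Submodule.span F (Set.range fun i => ex F (b i : n → K)) := by
    apply le_antisymm
    · rw [UF, Submodule.span_le]
      rintro _ ⟨u, hu, rfl⟩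
      have hu' : u = ∑ i, b.repr ⟨u, hu⟩ i • (b i : n → K) := by
        have h := congrArg U.subtype (b.sum_repr ⟨u, hu⟩)
        rw [map_sum] at h
        simp only [map_smul, Submodule.subtype_apply] at h
        exact h.symm
      rw [hu', ex_sum]
      refine Submodule.sum_mem _ fun i _ => ?_
      rw [ex_smul]
      exact Submodule.smul_mem _ _ (Submodule.subset_span ⟨i, rfl⟩)
    · rw [Submodule.span_le]
      rintro _ ⟨i, rfl⟩
      exact Submodule.subset_span ⟨b i, (b i).2, rfl⟩
  rw [hspan, finrank_span_eq_card hli', Fintype.card_fin]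

end basechange

/-- image of a subspace under all coefficient matrices -/
def img (A : Option σ → Matrix n n K) (U : Submodule K (n → K)) : Submodule K (n → K) :=
  ⨆ k, U.map (A k).mulVecLin

abbrev FF (K σ : Type*) [Field K] := FractionRing (MvPolynomial σ K)

/-- the symbolic matrix over the rational function field -/
noncomputable def phi (A : Option σ → Matrix n n K) : (n → FF K σ) →ₗ[FF K σ] (n → FF K σ) :=
  ((symb A).map (algebraMap (MvPolynomial σ K) (FF K σ))).mulVecLin

theorem phi_apply_map (A : Option σ → Matrix n n K) (y : n → MvPolynomial σ K) :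
    phi A (fun i => algebraMap _ (FF K σ) (y i)) =
      fun i => algebraMap _ (FF K σ) ((symb A *ᵥ y) i) := by
  funext i
  simp [phi, Matrix.mulVec, dotProduct]

omit [Fintype n] [Fintype σ] in
theorem ex_eq_cst (v : n → K) :
    ex (FF K σ) v = fun i => algebraMap (MvPolynomial σ K) (FF K σ) (cst v i) := by
  funext i
  simp only [ex, cst]
  rw [IsScalarTower.algebraMap_apply K (MvPolynomial σ K) (FF K σ)]
  rfl

theorem phi_ex (A : Option σ → Matrix n n K) (v : n → K) :
    phi A (ex (FF K σ) v) =
      ∑ k, (algebraMap (MvPolynomial σ K) (FF K σ) (ff K k)) • ex (FF K σ) (A k *ᵥ v) := by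
  rw [ex_eq_cst, phi_apply_map]
  funext i
  rw [symb_mulVec]
  simp only [map_C_mulVec_cst, Finset.sum_apply, Pi.smul_apply, smul_eq_mul, map_sum, map_mul,
    ex_eq_cst]

omit [Fintype σ] in
theorem img_mem (A : Option σ → Matrix n n K) (U : Submodule K (n → K)) (k : Option σ) (v : n → K)
    (hv : v ∈ U) : A k *ᵥ v ∈ img A U :=
  (le_iSup (fun k => U.map (A k).mulVecLin) k) ⟨v, hv, rfl⟩

theorem phi_map_le (A : Option σ → Matrix n n K) (U : Submodule K (n → K)) :
    (UF (FF K σ) U).map (phi A) ≤ UF (FF K σ) (img A U) := by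
  rw [UF, Submodule.map_span, Submodule.span_le]
  rintro _ ⟨_, ⟨u, hu, rfl⟩, rfl⟩
  rw [SetLike.mem_coe, phi_ex]
  refine Submodule.sum_mem _ fun k _ => Submodule.smul_mem _ _ (Submodule.subset_span ?_)
  exact ⟨_, img_mem A U k u hu, rfl⟩

theorem finrank_map_add {V : Type*} {F : Type*} [Field F] [AddCommGroup V] [Module F V]
    [FiniteDimensional F V] (f : V →ₗ[F] V) (U : Submodule F V) :
    Module.finrank F (U.map f) + Module.finrank F ((LinearMap.ker f ⊓ U : Submodule F V)) =
      Module.finrank F U := by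
  have h := LinearMap.finrank_range_add_finrank_ker (f.domRestrict U)
  rw [LinearMap.range_domRestrict, LinearMap.ker_domRestrict] at h
  rw [← h, ← Submodule.finrank_map_subtype_eq U ((LinearMap.ker f).comap U.subtype),
    Submodule.map_comap_subtype, inf_comm]

theorem rank_phi (A : Option σ → Matrix n n K) :
    ((symb A).map (algebraMap (MvPolynomial σ K) (FF K σ))).rank +
      Module.finrank (FF K σ) (LinearMap.ker (phi A)) = Fintype.card n := by
  have h := LinearMap.finrank_range_add_finrank_ker (phi A)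
  rw [Module.finrank_fintype_fun_eq_card] at h
  exact h

/-- The easy inequality. -/
theorem rank_le (A : Option σ → Matrix n n K) (U : Submodule K (n → K)) :
    ((symb A).map (algebraMap (MvPolynomial σ K) (FF K σ))).rank + Module.finrank K U ≤
      Fintype.card n + Module.finrank K (img A U) := by
  have h1 := rank_phi A
  have h2 := finrank_map_add (phi A) (UF (FF K σ) U)
  have h3 := Submodule.finrank_mono (phi_map_le A U)
  have h4 := Submodule.finrank_mono (inf_le_left : LinearMap.ker (phi A) ⊓ UF (FF K σ) U ≤ _)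
  rw [finrank_UF] at h2 h3
  omega

theorem ker_le_UF (A : Option σ → Matrix n n K) : LinearMap.ker (phi A) ≤ UF (FF K σ) (LL A) := by
  intro v hv
  obtain ⟨b, hb⟩ := IsLocalization.exist_integer_multiples_of_finite
    (nonZeroDivisors (MvPolynomial σ K)) v
  choose y hy using hb
  have hb0 : algebraMap (MvPolynomial σ K) (FF K σ) (b : MvPolynomial σ K) ≠ 0 :=
    IsLocalization.to_map_ne_zero_of_mem_nonZeroDivisors _ le_rfl b.2
  have hyv : (fun i => algebraMap _ (FF K σ) (y i)) =
      (algebraMap (MvPolynomial σ K) (FF K σ) (b : MvPolynomial σ K)) • v := by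
    funext i
    rw [hy i, Algebra.smul_def]; rfl
  have hyker : symb A *ᵥ y = 0 := by
    have h := phi_apply_map A y
    rw [hyv, map_smul, LinearMap.mem_ker.mp hv, smul_zero] at h
    funext i
    have hi := congrFun h i
    simp only [Pi.zero_apply] at hi ⊢
    exact (IsFractionRing.injective (MvPolynomial σ K) (FF K σ)) (by rw [← hi, map_zero])
  have hmem : (fun i => algebraMap _ (FF K σ) (y i)) ∈ UF (FF K σ) (LL A) := by
    obtain ⟨S, hS⟩ := expand y
    have e : (fun i => algebraMap _ (FF K σ) (y i)) =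
        ∑ α ∈ S, (algebraMap (MvPolynomial σ K) (FF K σ) (monomial α 1)) •
          ex (FF K σ) (cf y α) := by
      funext i
      conv_lhs => rw [hS]
      simp only [Finset.sum_apply, Pi.smul_apply, smul_eq_mul, map_sum, map_mul, ex_eq_cst]
    rw [e]
    refine Submodule.sum_mem _ fun α _ => Submodule.smul_mem _ _ (Submodule.subset_span ?_)
    exact ⟨_, cf_mem_LL A hyker α, rfl⟩
  rw [hyv] at hmem
  have := Submodule.smul_mem _ (algebraMap (MvPolynomial σ K) (FF K σ)
    (b : MvPolynomial σ K))⁻¹ hmem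
  rwa [smul_smul, inv_mul_cancel₀ hb0, one_smul] at this

/-- The key surjectivity: the symbolic matrix maps the extension of `LL` onto the extension of
its image, for symmetric families with at most two exceptional members. -/
theorem UF_img_le (A : Option σ → Matrix n n K) (hA : ∀ k, (A k).IsSymm) (h2 : (2 : K) ≠ 0)
    (E : Finset (Option σ)) (hE : E.card ≤ 2) (hgood : ∀ k ∉ E, Good (A k)) :
    UF (FF K σ) (img A (LL A)) ≤ (UF (FF K σ) (LL A)).map (phi A) := by
  classical
  intro x hx
  by_contra hxn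
  obtain ⟨f, hfx, hf⟩ := Submodule.exists_dual_map_eq_bot_of_notMem hxn inferInstance
  apply hfx
  -- clear denominators of the functional
  obtain ⟨b, hb⟩ := IsLocalization.exist_integer_multiples_of_finite
    (nonZeroDivisors (MvPolynomial σ K)) (fun i : n => f (fun j => if i = j then 1 else 0))
  choose z hz using hb
  have hb0 : algebraMap (MvPolynomial σ K) (FF K σ) (b : MvPolynomial σ K) ≠ 0 :=
    IsLocalization.to_map_ne_zero_of_mem_nonZeroDivisors _ le_rfl b.2
  have hfz : ∀ y : n → MvPolynomial σ K,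
      algebraMap (MvPolynomial σ K) (FF K σ) (z ⬝ᵥ y) =
        algebraMap (MvPolynomial σ K) (FF K σ) (b : MvPolynomial σ K) *
          f (fun i => algebraMap _ (FF K σ) (y i)) := by
    intro y
    rw [LinearMap.pi_apply_eq_sum_univ f, dotProduct, map_sum, Finset.mul_sum]
    refine Finset.sum_congr rfl fun i _ => ?_
    rw [map_mul, hz i, Algebra.smul_def, smul_eq_mul]
    ring
  have hinj := IsFractionRing.injective (MvPolynomial σ K) (FF K σ)
  have hz1 : ∀ l ∈ LL A, z ⬝ᵥ (symb A *ᵥ cst l) = 0 := by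
    intro l hl
    apply hinj
    rw [hfz, ← phi_apply_map, ← ex_eq_cst, map_zero]
    have : f (phi A (ex (FF K σ) l)) ∈ ((UF (FF K σ) (LL A)).map (phi A)).map f :=
      ⟨_, ⟨_, Submodule.subset_span ⟨l, hl, rfl⟩, rfl⟩, rfl⟩
    rw [hf, Submodule.mem_bot] at this
    rw [this, mul_zero]
  have hz2 := fun k l hl => key A hA h2 E hE hgood z hz1 k l hl
  have hker : UF (FF K σ) (img A (LL A)) ≤ LinearMap.ker f := by
    rw [UF, Submodule.span_le]
    rintro _ ⟨u, hu, rfl⟩
    rw [SetLike.mem_coe, LinearMap.mem_ker]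
    -- reduce to generators of the image
    let Q : Submodule K (n → K) :=
      { carrier := {u | f (ex (FF K σ) u) = 0}
        add_mem' := by
          intro a b ha hb
          simp only [Set.mem_ofPred_eq] at ha hb ⊢
          rw [ex_add, map_add, ha, hb, add_zero]
        zero_mem' := by
          simp only [Set.mem_ofPred_eq]
          rw [ex_zero, map_zero]
        smul_mem' := by
          intro c a ha
          simp only [Set.mem_ofPred_eq] at ha ⊢
          rw [ex_smul, map_smul, ha, smul_zero] }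
    have hQ : img A (LL A) ≤ Q := by
      refine iSup_le fun k => ?_
      rintro _ ⟨l, hl, rfl⟩
      show f (ex (FF K σ) (A k *ᵥ l)) = 0
      have h0 := hz2 k l hl
      rw [map_C_mulVec_cst] at h0
      have h1 := hfz (cst (A k *ᵥ l))
      rw [h0, map_zero, ← ex_eq_cst] at h1
      exact (mul_eq_zero.mp h1.symm).resolve_left hb0
    exact hQ hu
  exact hker hx

/-- **Main theorem.** -/
theorem main (A : Option σ → Matrix n n K) (hA : ∀ k, (A k).IsSymm) (h2 : (2 : K) ≠ 0)
    (E : Finset (Option σ)) (hE : E.card ≤ 2) (hgood : ∀ k ∉ E, Good (A k)) :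
    ((symb A).map (algebraMap (MvPolynomial σ K) (FF K σ))).rank + Module.finrank K (LL A) =
      Fintype.card n + Module.finrank K (img A (LL A)) := by
  have h1 := rank_phi A
  have h3 := finrank_map_add (phi A) (UF (FF K σ) (LL A))
  have h4 : (UF (FF K σ) (LL A)).map (phi A) = UF (FF K σ) (img A (LL A)) :=
    le_antisymm (phi_map_le A _) (UF_img_le A hA h2 E hE hgood)
  have h5 : LinearMap.ker (phi A) ⊓ UF (FF K σ) (LL A) = LinearMap.ker (phi A) :=
    inf_eq_left.mpr (ker_le_UF A)
  rw [h4, h5, finrank_UF, finrank_UF] at h3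
  omega

/-- A vanishing determinant forces a rank drop over the fraction field. -/
theorem rank_lt_of_det_eq_zero [DecidableEq n] (A : Option σ → Matrix n n K)
    (h : (symb A).det = 0) :
    ((symb A).map (algebraMap (MvPolynomial σ K) (FF K σ))).rank < Fintype.card n := by
  have hdet : ((symb A).map (algebraMap (MvPolynomial σ K) (FF K σ))).det = 0 := by
    have := RingHom.map_det (algebraMap (MvPolynomial σ K) (FF K σ)) (symb A)
    rw [RingHom.mapMatrix_apply] at this
    rw [← this, h, map_zero]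
  obtain ⟨v, hv, hv0⟩ := Matrix.exists_mulVec_eq_zero_iff.mpr hdet
  have h1 := rank_phi A
  have hpos : 0 < Module.finrank (FF K σ) (LinearMap.ker (phi A)) := by
    rw [Module.finrank_pos_iff_exists_ne_zero]
    refine ⟨⟨v, ?_⟩, ?_⟩
    · rw [LinearMap.mem_ker]; exact hv0
    · intro h0
      exact hv (congrArg Subtype.val h0)
  omega

theorem det_eq_zero_of_rank_lt [DecidableEq n] (A : Option σ → Matrix n n K)
    (h : ((symb A).map (algebraMap (MvPolynomial σ K) (FF K σ))).rank < Fintype.card n) :
    (symb A).det = 0 := by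
  by_contra hdet
  have hdet' : ((symb A).map (algebraMap (MvPolynomial σ K) (FF K σ))).det ≠ 0 := by
    have := RingHom.map_det (algebraMap (MvPolynomial σ K) (FF K σ)) (symb A)
    rw [RingHom.mapMatrix_apply] at this
    rw [← this]
    intro h0
    exact hdet ((IsFractionRing.injective (MvPolynomial σ K) (FF K σ))
      (by rw [h0, map_zero]))
  have := Matrix.rank_of_det_ne_zero hdet'
  omega

end Pool.Agent.H533R2.SymSdit
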