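import Mathlib
import Pool.Agent.H533R2.SymSdit

open MvPolynomial Matrix

namespace Pool.Agent.H533R2.SymSdit

variable {K : Type*} [Field K] {n σ : Type*} [Fintype n] [Fintype σ]

/-- The symmetric affine family `B`, `u k v kᵀ + v k u kᵀ`. -/
def symFam (B : Matrix n n K) (u v : σ → n → K) : Option σ → Matrix n n K
  | none => B
  | some k => vecMulVec (u k) (v k) + vecMulVec (v k) (u k)

/-- The desymmetrised family. -/
def desymFam (B : Matrix n n K) (u v : σ → n → K) : Option (σ ⊕ σ) → Matrix n n K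
  | none => B
  | some (Sum.inl k) => vecMulVec (u k) (v k)
  | some (Sum.inr k) => vecMulVec (v k) (u k)

omit [Fintype n] [Fintype σ] in
theorem symFam_symm (B : Matrix n n K) (hB : B.IsSymm) (u v : σ → n → K) (k : Option σ) :
    (symFam B u v k).IsSymm := by
  rcases k with _ | k
  · exact hB
  · refine Matrix.IsSymm.ext fun i j => ?_
    simp only [symFam, Matrix.add_apply, vecMulVec_apply]
    ring

theorem perp_LL (A : Option σ → Matrix n n K) (w : n → K)
    (hw : ∀ y : n → MvPolynomial σ K, symb A *ᵥ y = 0 → cst w ⬝ᵥ y = 0)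
    (l : n → K) (hl : l ∈ LL A) : w ⬝ᵥ l = 0 := by
  have := LL_induction A (LinearMap.ker (dotProductBilin K K w)) (by
    intro y hy α
    rw [LinearMap.mem_ker]
    show w ⬝ᵥ cf y α = 0
    rw [← cst_dot_coeff, hw y hy, coeff_zero]) hl
  exact this

theorem perp_or_perp (B : Matrix n n K) (hB : B.IsSymm) (u v : σ → n → K) (h2 : (2 : K) ≠ 0)
    (k : σ) : (∀ l ∈ LL (symFam B u v), u k ⬝ᵥ l = 0) ∨
      (∀ l ∈ LL (symFam B u v), v k ⬝ᵥ l = 0) := by
  set A := symFam B u v with hAdef
  have hA : ∀ k, (A k).IsSymm := symFam_symm B hB u v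
  have hM : ∀ i j, A (some k) i j = u k i * v k j + v k i * u k j := by
    intro i j
    simp only [hAdef, symFam, Matrix.add_apply, vecMulVec_apply]
  have prod : ∀ y : n → MvPolynomial σ K, symb A *ᵥ y = 0 →
      cst (u k) ⬝ᵥ y = 0 ∨ cst (v k) ⬝ᵥ y = 0 := by
    intro y hy
    have h0 := isotropy A hA y y hy hy (some k)
    have e : y ⬝ᵥ ((A (some k)).map C *ᵥ y) = C 2 * ((cst (u k) ⬝ᵥ y) * (cst (v k) ⬝ᵥ y)) := by
      rw [form_eq (A (some k)) (u k) (v k) hM y y, dotProduct_comm y, dotProduct_comm y]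
      simp only [map_ofNat]
      ring
    rw [e] at h0
    have hC : (C 2 : MvPolynomial σ K) ≠ 0 := by
      rw [Ne, C_eq_zero]; exact h2
    exact mul_eq_zero.mp ((mul_eq_zero.mp h0).resolve_left hC)
  by_cases hu : ∀ y : n → MvPolynomial σ K, symb A *ᵥ y = 0 → cst (u k) ⬝ᵥ y = 0
  · exact Or.inl fun l hl => perp_LL A (u k) hu l hl
  by_cases hv : ∀ y : n → MvPolynomial σ K, symb A *ᵥ y = 0 → cst (v k) ⬝ᵥ y = 0
  · exact Or.inr fun l hl => perp_LL A (v k) hv l hl
  exfalso
  push Not at hu hv
  obtain ⟨y1, hy1, hu1⟩ := hu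
  obtain ⟨y2, hy2, hv2⟩ := hv
  have hv1 := (prod y1 hy1).resolve_left hu1
  have hu2 := (prod y2 hy2).resolve_right hv2
  have hsum : symb A *ᵥ (y1 + y2) = 0 := by rw [Matrix.mulVec_add, hy1, hy2, add_zero]
  rcases prod (y1 + y2) hsum with h | h
  · rw [dotProduct_add, hu2, add_zero] at h; exact hu1 h
  · rw [dotProduct_add, hv1, zero_add] at h; exact hv2 h

theorem img_desym_le (B : Matrix n n K) (hB : B.IsSymm) (u v : σ → n → K) (h2 : (2 : K) ≠ 0) :
    img (desymFam B u v) (LL (symFam B u v)) ≤ img (symFam B u v) (LL (symFam B u v)) := by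
  refine iSup_le fun k => ?_
  rintro _ ⟨l, hl, rfl⟩
  rcases k with _ | k | k
  · exact img_mem (symFam B u v) _ none l hl
  · have hmem := img_mem (symFam B u v) _ (some k) l hl
    have e : symFam B u v (some k) *ᵥ l = (v k ⬝ᵥ l) • u k + (u k ⬝ᵥ l) • v k := by
      show (vecMulVec (u k) (v k) + vecMulVec (v k) (u k)) *ᵥ l = _
      rw [Matrix.add_mulVec, vecMulVec_mulVec, vecMulVec_mulVec, op_smul_eq_smul,
        op_smul_eq_smul]
    have e' : (desymFam B u v (some (Sum.inl k))).mulVecLin l = (v k ⬝ᵥ l) • u k := by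
      show vecMulVec (u k) (v k) *ᵥ l = _
      rw [vecMulVec_mulVec, op_smul_eq_smul]
    rw [e']
    rcases perp_or_perp B hB u v h2 k with h | h
    · rw [e, h l hl, zero_smul, add_zero] at hmem
      exact hmem
    · rw [h l hl, zero_smul]; exact Submodule.zero_mem _
  · have hmem := img_mem (symFam B u v) _ (some k) l hl
    have e : symFam B u v (some k) *ᵥ l = (v k ⬝ᵥ l) • u k + (u k ⬝ᵥ l) • v k := by
      show (vecMulVec (u k) (v k) + vecMulVec (v k) (u k)) *ᵥ l = _
      rw [Matrix.add_mulVec, vecMulVec_mulVec, vecMulVec_mulVec, op_smul_eq_smul,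
        op_smul_eq_smul]
    have e' : (desymFam B u v (some (Sum.inr k))).mulVecLin l = (u k ⬝ᵥ l) • v k := by
      show vecMulVec (v k) (u k) *ᵥ l = _
      rw [vecMulVec_mulVec, op_smul_eq_smul]
    rw [e']
    rcases perp_or_perp B hB u v h2 k with h | h
    · rw [h l hl, zero_smul]; exact Submodule.zero_mem _
    · rw [e, h l hl, zero_smul, zero_add] at hmem
      exact hmem

omit [Fintype σ] in
theorem symFam_good (B : Matrix n n K) (u v : σ → n → K) :
    ∀ k ∉ ({none} : Finset (Option σ)), Good (symFam B u v k) := by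
  rintro (_ | k) hk
  · exact absurd (Finset.mem_singleton_self _) hk
  · left
    show (vecMulVec (u k) (v k) + vecMulVec (v k) (u k)).rank ≤ 2
    have hsub : LinearMap.range (vecMulVec (u k) (v k) + vecMulVec (v k) (u k)).mulVecLin ≤
        Submodule.span K (Set.range ![u k, v k]) := by
      rintro _ ⟨x, rfl⟩
      rw [Matrix.mulVecLin_apply, Matrix.add_mulVec, vecMulVec_mulVec, vecMulVec_mulVec,
        op_smul_eq_smul, op_smul_eq_smul]
      refine Submodule.add_mem _ (Submodule.smul_mem _ _ (Submodule.subset_span ⟨0, rfl⟩))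
        (Submodule.smul_mem _ _ (Submodule.subset_span ⟨1, rfl⟩))
    calc (vecMulVec (u k) (v k) + vecMulVec (v k) (u k)).rank
        ≤ Module.finrank K (Submodule.span K (Set.range ![u k, v k])) :=
          Submodule.finrank_mono hsub
      _ ≤ Fintype.card (Fin 2) := finrank_range_le_card _
      _ = 2 := by simp

/-- If the symmetric affine matrix is singular, so is the desymmetrised one. -/
theorem desym_of_sym [DecidableEq n] (B : Matrix n n K) (hB : B.IsSymm) (u v : σ → n → K)
    (h2 : (2 : K) ≠ 0) (h : (symb (symFam B u v)).det = 0) :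
    (symb (desymFam B u v)).det = 0 := by
  classical
  have heq := main (symFam B u v) (symFam_symm B hB u v) h2 {none} (by simp)
    (symFam_good B u v)
  have hlt := rank_lt_of_det_eq_zero _ h
  have hle := rank_le (desymFam B u v) (LL (symFam B u v))
  have hm := Submodule.finrank_mono (img_desym_le B hB u v h2)
  apply det_eq_zero_of_rank_lt
  omega

end Pool.Agent.H533R2.SymSdit
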